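import Pool.Agent.Helper31.RG.Goals

/-!
# Range concatenation grammars: MATCH
-/

namespace Pool.Agent.Helper89.RG.PkMATCH

open Pool.Agent.Helper31.RG

theorem uniq1 {T : Type} : ∀ (u : List (T ⊕ ℕ)), (u.filterMap Sum.getRight?).Nodup →
    ∀ {i i' v : ℕ}, u[i]? = some (Sum.inr v) → u[i']? = some (Sum.inr v) → i = i' := by
  intro u
  induction u with
  | nil => intro _ i i' v h1; simp at h1
  | cons s u ih =>
    intro h i i' v h1 h2
    have hmem : ∀ n : ℕ, u[n]? = some (Sum.inr v) → v ∈ u.filterMap Sum.getRight? := by
      intro n hn
      exact List.mem_filterMap.2 ⟨Sum.inr v, List.mem_of_getElem? hn, rfl⟩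
    have hnd : (u.filterMap Sum.getRight?).Nodup := by
      rw [List.filterMap_cons] at h
      split at h
      · exact h
      · exact (List.nodup_cons.1 h).2
    cases i with
    | zero =>
      cases i' with
      | zero => rfl
      | succ i' =>
        exfalso
        simp only [List.getElem?_cons_zero, Option.some.injEq] at h1
        subst h1
        simp only [List.getElem?_cons_succ] at h2
        rw [show List.filterMap Sum.getRight? (Sum.inr v :: u) = v :: List.filterMap Sum.getRight? u
          from rfl] at h
        exact (List.nodup_cons.1 h).1 (hmem _ h2)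
    | succ i =>
      cases i' with
      | zero =>
        exfalso
        simp only [List.getElem?_cons_zero, Option.some.injEq] at h2
        subst h2
        simp only [List.getElem?_cons_succ] at h1
        rw [show List.filterMap Sum.getRight? (Sum.inr v :: u) = v :: List.filterMap Sum.getRight? u
          from rfl] at h
        exact (List.nodup_cons.1 h).1 (hmem _ h1)
      | succ i' =>
        simp only [List.getElem?_cons_succ] at h1 h2
        rw [ih hnd h1 h2]

theorem uniq2 {T : Type} : ∀ (L : List (List (T ⊕ ℕ))), (L.flatten.filterMap Sum.getRight?).Nodup →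
    ∀ {j j' i i' v : ℕ} {u u' : List (T ⊕ ℕ)}, L[j]? = some u → L[j']? = some u' →
      u[i]? = some (Sum.inr v) → u'[i']? = some (Sum.inr v) → j = j' ∧ i = i' := by
  intro L
  induction L with
  | nil => intro _ j j' i i' v u u' h1; simp at h1
  | cons s L ih =>
    intro h j j' i i' v u u' h1 h2 h3 h4
    rw [List.flatten_cons, List.filterMap_append, List.nodup_append] at h
    obtain ⟨ha, hb, hc⟩ := h
    have hmem1 : ∀ (w : List (T ⊕ ℕ)) (n : ℕ), w[n]? = some (Sum.inr v) →
        v ∈ w.filterMap Sum.getRight? := by
      intro w n hn
      exact List.mem_filterMap.2 ⟨Sum.inr v, List.mem_of_getElem? hn, rfl⟩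
    have hmem2 : ∀ (w : List (T ⊕ ℕ)) (m n : ℕ), L[m]? = some w → w[n]? = some (Sum.inr v) →
        v ∈ L.flatten.filterMap Sum.getRight? := by
      intro w m n hm hn
      exact List.mem_filterMap.2 ⟨Sum.inr v, List.mem_flatten.2
        ⟨w, List.mem_of_getElem? hm, List.mem_of_getElem? hn⟩, rfl⟩
    cases j with
    | zero =>
      simp only [List.getElem?_cons_zero, Option.some.injEq] at h1
      subst h1
      cases j' with
      | zero =>
        simp only [List.getElem?_cons_zero, Option.some.injEq] at h2
        subst h2
        exact ⟨rfl, uniq1 _ ha h3 h4⟩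
      | succ j' =>
        simp only [List.getElem?_cons_succ] at h2
        exact absurd rfl (hc v (hmem1 _ _ h3) v (hmem2 _ _ _ h2 h4))
    | succ j =>
      simp only [List.getElem?_cons_succ] at h1
      cases j' with
      | zero =>
        simp only [List.getElem?_cons_zero, Option.some.injEq] at h2
        subst h2
        exact absurd rfl (hc v (hmem1 _ _ h4) v (hmem2 _ _ _ h1 h3))
      | succ j' =>
        simp only [List.getElem?_cons_succ] at h2
        obtain ⟨h5, h6⟩ := ih hb h1 h2 h3 h4
        exact ⟨by rw [h5], h6⟩

/-- An arrangement has no number twice. -/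
theorem uniq3 {k : ℕ} : ∀ (ρ : List (Option (Fin k))), (ρ.filterMap id).Nodup →
    ∀ {j j' : ℕ} {l : Fin k}, ρ[j]? = some (some l) → ρ[j']? = some (some l) → j = j' := by
  intro ρ
  induction ρ with
  | nil => intro _ j j' l h1; simp at h1
  | cons s ρ ih =>
    intro h j j' l h1 h2
    have hmem : ∀ n : ℕ, ρ[n]? = some (some l) → l ∈ ρ.filterMap id := by
      intro n hn
      exact List.mem_filterMap.2 ⟨some l, List.mem_of_getElem? hn, rfl⟩
    have hnd : (ρ.filterMap id).Nodup := by
      rw [List.filterMap_cons] at h
      split at h
      · exact h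
      · exact (List.nodup_cons.1 h).2
    cases j with
    | zero =>
      cases j' with
      | zero => rfl
      | succ j' =>
        exfalso
        simp only [List.getElem?_cons_zero, Option.some.injEq] at h1
        subst h1
        simp only [List.getElem?_cons_succ] at h2
        rw [show List.filterMap id (some l :: ρ) = l :: List.filterMap id ρ from rfl] at h
        exact (List.nodup_cons.1 h).1 (hmem _ h2)
    | succ j =>
      cases j' with
      | zero =>
        exfalso
        simp only [List.getElem?_cons_zero, Option.some.injEq] at h2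
        subst h2
        simp only [List.getElem?_cons_succ] at h1
        rw [show List.filterMap id (some l :: ρ) = l :: List.filterMap id ρ from rfl] at h
        exact (List.nodup_cons.1 h).1 (hmem _ h1)
      | succ j' =>
        simp only [List.getElem?_cons_succ] at h1 h2
        rw [ih hnd h1 h2]

theorem flat {A B : Type} (g : A → List B) : ∀ (u : List A) (n : ℕ), u.length ≤ n →
    (List.ofFn fun i : Fin n => (u[i.val]?).elim [] g).flatten = (u.map g).flatten := by
  intro u
  induction u with
  | nil =>
    intro n _
    simp
  | cons s u ih =>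
    intro n hn
    cases n with
    | zero => simp at hn
    | succ n =>
      rw [List.ofFn_succ, List.flatten_cons, List.map_cons, List.flatten_cons]
      have h2 := ih n (by simpa using hn)
      rw [← h2]
      rfl

theorem flat0 {B : Type} (y : List B) (n : ℕ) :
    (List.ofFn fun i : Fin (n + 1) => if i = 0 then y else []).flatten = y := by
  rw [List.ofFn_succ, List.flatten_cons]
  simp

theorem len_flat {T : Type} {n : ℕ} (f : Fin n → List T) :
    (List.ofFn f).flatten.length = ∑ i, (f i).length := by
  rw [List.length_flatten, List.map_ofFn, List.sum_ofFn]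
  rfl

theorem nil_iff {T : Type} {y z : List T} (h : min y.length 2 = min z.length 2) :
    y = [] ↔ z = [] := by
  rw [← List.length_eq_zero_iff, ← List.length_eq_zero_iff]
  omega

theorem one_iff {T : Type} {y z : List T} {a : T} (h : min y.length 2 = min z.length 2)
    (h' : y.head? = z.head?) (hz : z = [a]) : y = [a] := by
  subst hz
  have h1 : y.length = 1 := by
    simp only [List.length_cons, List.length_nil] at h
    omega
  obtain ⟨b, rfl⟩ := List.length_eq_one_iff.1 h1
  simpa using h'

theorem thm (hABS : G_ABS) : G_MATCH := by
  classical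
  intro T N X k r c μ x x' hlin hlen hdat ρ hρ ν hν
  obtain ⟨hl1, hl2, hl3⟩ := hlin
  have hL : c.lhs.length = ρ.length := by
    have := congrArg List.length hν
    simpa [app] using this
  -- the value of the components
  have hval : ∀ {j : ℕ} {u : List (T ⊕ ℕ)} {o : Option (Fin k)}, c.lhs[j]? = some u →
      ρ[j]? = some o → subst ν u = o.elim [] x := by
    intro j u o h1 h2
    have h3 : (c.lhs.map (subst ν))[j]? = (app x ρ)[j]? := by rw [hν]
    simp only [app, List.getElem?_map, h1, h2, Option.map_some, Option.some.injEq] at h3
    exact h3
  -- the places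
  let Pl : ℕ → Fin k × Fin (r + 1) → Prop := fun v a => ∃ (j : ℕ) (u : List (T ⊕ ℕ)),
    c.lhs[j]? = some u ∧ ρ[j]? = some (some a.1) ∧ u[a.2.val]? = some (Sum.inr v)
  let plc : ℕ → Option (Fin k × Fin (r + 1)) := fun v =>
    if h : ∃ a, Pl v a then some h.choose else none
  have hPu : ∀ {v : ℕ} {a a' : Fin k × Fin (r + 1)}, Pl v a → Pl v a' → a = a' := by
    rintro v a a' ⟨j, u, h1, h2, h3⟩ ⟨j', u', h1', h2', h3'⟩
    obtain ⟨e1, e2⟩ := uniq2 _ hl2 h1 h1' h3 h3'
    subst e1
    rw [h2] at h2'
    simp only [Option.some.injEq] at h2'
    exact Prod.ext h2' (Fin.ext e2)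
  have hP1 : ∀ {v : ℕ} {a : Fin k × Fin (r + 1)}, plc v = some a → Pl v a := by
    intro v a h
    simp only [plc] at h
    split_ifs at h with h1
    simp only [Option.some.injEq] at h
    rw [← h]
    exact h1.choose_spec
  have hP2 : ∀ {v : ℕ} {a : Fin k × Fin (r + 1)}, Pl v a → plc v = some a := by
    intro v a h
    have h1 : ∃ a, Pl v a := ⟨a, h⟩
    simp only [plc]
    rw [dif_pos h1, hPu h1.choose_spec h]
  have hPi : ∀ {v w : ℕ} {a : Fin k × Fin (r + 1)}, plc v = some a → plc w = some a → v = w := by
    intro v w a h h'
    obtain ⟨j, u, h1, h2, h3⟩ := hP1 h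
    obtain ⟨j', u', h1', h2', h3'⟩ := hP1 h'
    have e1 := uniq3 _ hρ.2 h2 h2'
    subst e1
    rw [h1] at h1'
    simp only [Option.some.injEq] at h1'
    subst h1'
    rw [h3] at h3'
    simpa using h3'
  have hP3 : ∀ {j i v : ℕ} {u : List (T ⊕ ℕ)}, c.lhs[j]? = some u → ρ[j]? = some none →
      u[i]? = some (Sum.inr v) → plc v = none := by
    intro j i v u h1 h2 h3
    rcases hh : plc v with _ | a
    · rfl
    · exfalso
      obtain ⟨j', u', h1', h2', h3'⟩ := hP1 hh
      obtain ⟨e1, e2⟩ := uniq2 _ hl2 h1 h1' h3 h3'
      subst e1
      rw [h2] at h2'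
      simp at h2'
  -- values in empty components
  have hemp : ∀ {j i : ℕ} {u : List (T ⊕ ℕ)} {s : T ⊕ ℕ}, c.lhs[j]? = some u →
      ρ[j]? = some none → u[i]? = some s → Sum.elim (fun a => [a]) ν s = [] := by
    intro j i u s h1 h2 h3
    have h4 := hval h1 h2
    simp only [Option.elim_none] at h4
    unfold subst at h4
    rw [List.flatten_eq_nil_iff] at h4
    exact h4 _ (List.mem_map.2 ⟨s, List.mem_of_getElem? h3, rfl⟩)
  -- the cut
  let D : Fin k → Fin (r + 1) → List T := fun l i =>
    if h : ∃ (j : ℕ) (u : List (T ⊕ ℕ)), c.lhs[j]? = some u ∧ ρ[j]? = some (some l) then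
      (h.choose_spec.choose[i.val]?).elim [] (Sum.elim (fun a => [a]) ν)
    else if i = 0 then x l else []
  have hD1 : ∀ {j : ℕ} {u : List (T ⊕ ℕ)} {l : Fin k}, c.lhs[j]? = some u →
      ρ[j]? = some (some l) → ∀ i : Fin (r + 1),
      D l i = (u[i.val]?).elim [] (Sum.elim (fun a => [a]) ν) := by
    intro j u l h1 h2 i
    have h : ∃ (j : ℕ) (u : List (T ⊕ ℕ)), c.lhs[j]? = some u ∧ ρ[j]? = some (some l) :=
      ⟨j, u, h1, h2⟩
    have e1 : h.choose = j := uniq3 _ hρ.2 h.choose_spec.choose_spec.2 h2
    have e2 : h.choose_spec.choose = u := by
      have h3 := h.choose_spec.choose_spec.1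
      have h4 : c.lhs[h.choose]? = some u := by rw [e1]; exact h1
      exact (Option.some.inj (h4.symm.trans h3)).symm
    simp only [D]
    rw [dif_pos h, e2]
  have hcut : Cut x D := by
    intro l
    by_cases h : ∃ (j : ℕ) (u : List (T ⊕ ℕ)), c.lhs[j]? = some u ∧ ρ[j]? = some (some l)
    · obtain ⟨j, u, h1, h2⟩ := h
      have h3 : D l = fun i => (u[i.val]?).elim [] (Sum.elim (fun a => [a]) ν) :=
        funext fun i => hD1 h1 h2 i
      rw [h3, flat _ u (r + 1) ((hlen u (List.mem_of_getElem? h1)).trans (Nat.le_succ r))]
      exact hval h1 h2
    · have h3 : D l = fun i => if i = 0 then x l else [] := by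
        funext i
        simp only [D]
        rw [dif_neg h]
      rw [h3]
      exact flat0 _ _
  obtain ⟨D', hcut', hDD⟩ : (infD D, val μ x D) ∈ dat r μ x' := hdat ⟨D, hcut, rfl⟩
  have hinf : infD D = infD D' := congrArg Prod.fst hDD
  have hvv : val μ x D = val μ x' D' := congrArg Prod.snd hDD
  have hi1 : ∀ l i, min (D l i).length 2 = min (D' l i).length 2 := fun l i =>
    congrArg Prod.fst (congrFun (congrFun hinf l) i)
  have hi2 : ∀ l i, (D l i).head? = (D' l i).head? := fun l i =>
    congrArg Prod.snd (congrFun (congrFun hinf l) i)
  -- the new substitution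
  let ν' : ℕ → List T := fun v => (plc v).elim [] fun a => D' a.1 a.2
  have hν1 : ∀ v, Sum.inr v ∈ c.lhs.flatten → ν v = (plc v).elim [] fun a => D a.1 a.2 := by
    intro v hv
    obtain ⟨u, hu, hvu⟩ := List.mem_flatten.1 hv
    obtain ⟨j, hj⟩ := List.mem_iff_getElem?.1 hu
    obtain ⟨i, hi⟩ := List.mem_iff_getElem?.1 hvu
    have hjL : j < ρ.length := by
      rw [← hL]
      exact (List.getElem?_eq_some_iff.1 hj).1
    have hir : i < r + 1 := by
      have h1 := (List.getElem?_eq_some_iff.1 hi).1
      have h2 := hlen u hu
      omega
    obtain ⟨o, ho⟩ : ∃ o, ρ[j]? = some o := ⟨ρ[j], List.getElem?_eq_getElem hjL⟩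
    rcases o with _ | l
    · rw [hP3 hj ho hi]
      have h3 := hemp hj ho hi
      simpa using h3
    · have h4 : plc v = some (l, ⟨i, hir⟩) := hP2 ⟨j, u, hj, ho, hi⟩
      rw [h4]
      have h5 := hD1 hj ho ⟨i, hir⟩
      simp only [hi, Option.elim_some, Sum.elim_inr] at h5
      simpa using h5.symm
  refine ⟨ν', ?_, ?_⟩
  · -- the left-hand side
    apply List.ext_getElem?
    intro j
    simp only [app, List.getElem?_map]
    rcases hj : c.lhs[j]? with _ | u
    · have h1 : ρ[j]? = none := by
        rw [List.getElem?_eq_none_iff] at hj ⊢
        omega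
      rw [h1]
      rfl
    · have hjL : j < ρ.length := by
        rw [← hL]
        exact (List.getElem?_eq_some_iff.1 hj).1
      obtain ⟨o, ho⟩ : ∃ o, ρ[j]? = some o := ⟨ρ[j], List.getElem?_eq_getElem hjL⟩
      rw [ho]
      simp only [Option.map_some, Option.some.injEq]
      rcases o with _ | l
      · simp only [Option.elim_none]
        unfold subst
        rw [List.flatten_eq_nil_iff]
        intro z hz
        obtain ⟨s, hs, rfl⟩ := List.mem_map.1 hz
        obtain ⟨i, hi⟩ := List.mem_iff_getElem?.1 hs
        have h3 := hemp hj ho hi
        rcases s with a | v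
        · simp at h3
        · have h4 := hP3 hj ho hi
          simp only [Sum.elim_inr, ν', h4, Option.elim_none]
      · simp only [Option.elim_some]
        have hul := (hlen u (List.mem_of_getElem? hj)).trans (Nat.le_succ r)
        have h3 : D' l = fun i => (u[i.val]?).elim [] (Sum.elim (fun a => [a]) ν') := by
          funext i
          have h4 := hD1 hj ho i
          rcases hi : u[i.val]? with _ | s
          · rw [hi] at h4
            simp only [Option.elim_none] at h4 ⊢
            exact (nil_iff (hi1 l i)).1 h4
          · rw [hi] at h4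
            simp only [Option.elim_some] at h4 ⊢
            rcases s with a | v
            · simp only [Sum.elim_inl] at h4 ⊢
              exact one_iff (hi1 l i).symm (hi2 l i).symm h4
            · have h5 : plc v = some (l, i) := hP2 ⟨j, u, hj, ho, hi⟩
              simp only [Sum.elim_inr, ν', h5, Option.elim_some]
        have h6 := hcut' l
        rw [h3, flat _ u (r + 1) hul] at h6
        exact h6
  · -- the literals
    intro p hp
    obtain ⟨hp1, hp2, hp3⟩ := hl3 p hp
    let π : Fin k → Option (Fin k × Fin (r + 1)) := fun t => (p.2[t.val]?).bind plc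
    have hinj : Inj π := by
      intro i j a h1 h2
      simp only [π, Option.bind_eq_some_iff] at h1 h2
      obtain ⟨v, hv, hv'⟩ := h1
      obtain ⟨w, hw, hw'⟩ := h2
      have h3 := hPi hv' hw'
      subst h3
      obtain ⟨b1, b2⟩ := List.getElem?_eq_some_iff.1 hv
      obtain ⟨b3, b4⟩ := List.getElem?_eq_some_iff.1 hw
      exact Fin.ext ((hp2.getElem_inj_iff).1 (b2.trans b4.symm))
    have hs1 : subT D π = pad k (p.2.map ν) := by
      funext t
      simp only [subT, pad, π, List.getElem?_map]
      rcases ht : p.2[t.val]? with _ | v
      · rfl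
      · simp only [Option.bind_some, Option.map_some, Option.getD_some]
        exact (hν1 v (hp3 v (List.mem_of_getElem? ht))).symm
    have hs2 : subT D' π = pad k (p.2.map ν') := by
      funext t
      simp only [subT, pad, π, List.getElem?_map]
      rcases ht : p.2[t.val]? with _ | v
      · rfl
      · rfl
    have hvp := congrFun hvv π
    unfold val at hvp
    by_cases hm : meas (subT D π) < meas x
    · right
      rw [if_pos ⟨hinj, hm⟩] at hvp
      by_cases hm' : meas (subT D' π) < meas x'
      · rw [if_pos ⟨hinj, hm'⟩] at hvp
        simp only [Option.some.injEq] at hvp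
        rw [← hs1, ← hs2]
        exact ⟨hm, hm', hvp⟩
      · rw [if_neg (fun h => hm' h.2)] at hvp
        simp at hvp
    · left
      rw [if_neg (fun h => hm h.2)] at hvp
      have hm' : ¬ meas (subT D' π) < meas x' := by
        intro h
        rw [if_pos ⟨hinj, h⟩] at hvp
        simp at hvp
      have key : ∀ (y : Fin k → List T) (E : Fin k → Fin (r + 1) → List T), Cut y E →
          ¬ meas (subT E π) < meas y → ∀ l i, E l i ≠ [] →
            (∀ i', E l i' ≠ [] → i' = i) ∧ y l = E l i := by
        intro y E hE hme l
        have h1 : meas y = ∑ l, wt k (∑ i, (E l i).length) := by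
          unfold meas
          refine Finset.sum_congr rfl fun l _ => ?_
          rw [← hE l, len_flat]
        have h2 : meas (subT E π) = ∑ j, wt k ((π j).elim 0 fun a => (E a.1 a.2).length) := by
          unfold meas subT
          refine Finset.sum_congr rfl fun j _ => ?_
          rcases π j with _ | a <;> rfl
        have h3 := (hABS k r (fun l i => (E l i).length) π hinj).2 (by
          rw [← h1, ← h2]
          exact not_lt.1 hme) l
        have huniq : ∀ i, E l i ≠ [] → ∀ i', E l i' ≠ [] → i' = i := by
          intro i hi i' hi'
          by_contra hne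
          have h4 := h3 i (by simpa using hi)
          have h5 : (E l i').length ≤ ∑ m ∈ Finset.univ.erase i, (E l m).length :=
            Finset.single_le_sum (f := fun m => (E l m).length) (fun _ _ => Nat.zero_le _)
              (Finset.mem_erase.2 ⟨hne, Finset.mem_univ _⟩)
          have h6 := Finset.add_sum_erase Finset.univ (fun m => (E l m).length)
            (Finset.mem_univ i)
          have h7 : 0 < (E l i').length := List.length_pos_iff.2 hi'
          omega
        intro i hi
        refine ⟨huniq i hi, ?_⟩
        have h8 : E l = fun m => if m = i then E l i else [] := by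
          funext m
          by_cases hmi : m = i
          · rw [if_pos hmi, hmi]
          · rw [if_neg hmi]
            by_contra hne
            exact hmi (huniq i hi m hne)
        have hsub : ∀ (n : ℕ) (i : Fin n) (z : List T),
            (List.ofFn fun m : Fin n => if m = i then z else []).flatten = z := by
          intro n
          induction n with
          | zero => intro i; exact i.elim0
          | succ n ih =>
            intro i z
            rw [List.ofFn_succ, List.flatten_cons]
            refine Fin.cases ?_ (fun i => ?_) i
            · rw [if_pos rfl]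
              have : (List.ofFn fun m : Fin n => if m.succ = 0 then z else []).flatten = [] := by
                rw [List.flatten_eq_nil_iff]
                intro w hw
                obtain ⟨m, hm⟩ := List.mem_ofFn.1 hw
                rw [if_neg (Fin.succ_ne_zero m)] at hm
                exact hm.symm
              rw [this, List.append_nil]
            · rw [if_neg (Fin.succ_ne_zero i).symm]
              simp only [Fin.succ_inj]
              rw [ih i z]
              rfl
        rw [← hE l, h8]
        simp only [if_true]
        exact hsub _ _ _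
      have k1 := key x D hcut hm
      have k2 := key x' D' hcut' hm'
      let φ : ℕ → Option (Fin k) := fun v => (plc v).bind fun a =>
        if D a.1 a.2 = [] then none else some a.1
      refine ⟨p.2.map φ, ⟨by simpa using hp1, ?_⟩, ?_, ?_⟩
      · rw [List.filterMap_map]
        refine List.Nodup.filterMap ?_ hp2
        intro v w l hv hw
        simp only [Function.comp_apply, id_eq, Option.mem_def, φ, Option.bind_eq_some_iff] at hv hw
        obtain ⟨a, ha, ha'⟩ := hv
        obtain ⟨b, hb, hb'⟩ := hw
        split_ifs at ha' hb' with h1 h2
        simp only [Option.some.injEq] at ha' hb'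
        have h3 : a.1 = b.1 := ha'.trans hb'.symm
        have h4 : a.2 = b.2 := by
          refine (k1 b.1 b.2 h2).1 a.2 ?_
          rw [← h3]
          exact h1
        have h5 : a = b := Prod.ext h3 h4
        subst h5
        exact hPi ha hb
      · simp only [app, List.map_map]
        refine List.map_congr_left fun v hv => ?_
        rw [hν1 v (hp3 v hv)]
        simp only [Function.comp_apply, φ]
        rcases plc v with _ | a
        · rfl
        · simp only [Option.elim_some, Option.bind_some]
          split_ifs with h1
          · simp only [Option.elim_none]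
            exact h1
          · simp only [Option.elim_some]
            exact ((k1 a.1 a.2 h1).2).symm
      · simp only [app, List.map_map]
        refine List.map_congr_left fun v hv => ?_
        simp only [Function.comp_apply, φ, ν']
        rcases plc v with _ | a
        · rfl
        · simp only [Option.elim_some, Option.bind_some]
          have h2 := nil_iff (hi1 a.1 a.2)
          split_ifs with h1
          · simp only [Option.elim_none]
            exact h2.1 h1
          · simp only [Option.elim_some]
            exact ((k2 a.1 a.2 (fun h => h1 (h2.2 h))).2).symm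

end Pool.Agent.Helper89.RG.PkMATCH
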